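import Pool.Agent.H781.NG.All4
import Pool.Agent.H781.S22.Main

/-!
# `Sⁿ × Sⁿ` carries a metric with `(n+1)`-positive curvature operator iff `n = 2` (MP_b50944_gt, Q1)

The question asks for which `n ≥ 2` the product `Sⁿ × Sⁿ` admits a Riemannian metric whose curvature
operator is `(n+1)`-positive, and to exhibit one. The answer:

* for `n = 2` the explicit metric `g = φ |dx|² + Γ |η|² + κ (1 + Γ) / Γ ⟨x, η⟩²`,
  `η = dy - (x × dx) × y`, with `u = ⟨x, y⟩`, `φ = (19 + 5u²)/28`,
  `Γ = (7 + 3u² + 2u⁴ + 2u⁶ + 2u⁸ + 2u¹⁰)/18`,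
  `κ = (1 - Γ)/(1 - u²) = (11 + 8u² + 6u⁴ + 4u⁶ + 2u⁸)/18`, has `3`-positive curvature operator;
* for `n ≥ 3` every smooth Riemannian metric on `Sⁿ × Sⁿ` has a point at which some `n + 1`
  eigenvalues of the curvature operator have sum `≤ 0`.
-/

open Bundle Manifold ContDiff Metric
open scoped Topology RealInnerProductSpace

set_option autoImplicit false

noncomputable section

namespace Pool.Agent.Results.MP_b50944_gt.PositiveIffTwo

open Pool.Agent.H821R2 Pool.Agent.H781.S22

section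

variable {E : Type*} [NormedAddCommGroup E] [NormedSpace ℝ E]
  {H : Type*} [TopologicalSpace H] {I : ModelWithCorners ℝ E H}
  {M : Type*} [TopologicalSpace M] [ChartedSpace H M] [IsManifold I ∞ M]

/-- The Levi-Civita connection and the Riemann curvature tensor of `g` exist. -/
def HasCurvature (g : ContMDiffRiemannianMetric I ∞ E (fun x : M => TangentSpace I x)) : Prop :=
  ∃ (cov : CovariantDerivative I E (TangentSpace I : M → Type _)) (R : CurvField I M),
    IsLeviCivita g cov ∧ IsRiemannTensor cov R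

/-- At the point `x`, in some orthonormal frame `f` of the tangent space, the matrix of the
curvature operator is symmetric and some `k` of its eigenvalues (counted with multiplicity) have
sum `≤ 0`. -/
def NonposAt (g : ContMDiffRiemannianMetric I ∞ E (fun x : M => TangentSpace I x))
    (R : CurvField I M) (N k : ℕ) (x : M) : Prop :=
  ∃ f : Fin N → TangentSpace I x, IsOrthonormalFrame g x f ∧
    ∃ (h : (curvMatrix g R x f).IsHermitian) (t : Finset (Pr N)),
      t.card = k ∧ ∑ i ∈ t, h.eigenvalues i ≤ 0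

/-- The curvature operator of `g` is not `k`-positive: at some point `x`, some `k` eigenvalues have
sum `≤ 0`. -/
def SomewhereNonpos (g : ContMDiffRiemannianMetric I ∞ E (fun x : M => TangentSpace I x))
    (N k : ℕ) : Prop :=
  ∀ (cov : CovariantDerivative I E (TangentSpace I : M → Type _)) (R : CurvField I M),
    IsLeviCivita g cov → IsRiemannTensor cov R → ∃ x : M, NonposAt g R N k x

variable (I M) in
/-- Every smooth Riemannian metric `g` on `M` has a Levi-Civita connection and a Riemann tensor, and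
its curvature operator is not `k`-positive: at some point, some `k` eigenvalues have sum `≤ 0`. -/
def EveryMetricFails (N k : ℕ) : Prop :=
  ∀ g : ContMDiffRiemannianMetric I ∞ E (fun x : M => TangentSpace I x),
    HasCurvature g ∧ SomewhereNonpos g N k ∧ ¬ IsKPositive N k g

variable (I M) in
/-- The `N`-dimensional manifold `M` admits a smooth Riemannian metric whose curvature operator is
`k`-positive. -/
def Admits (N k : ℕ) : Prop :=
  ∃ g : ContMDiffRiemannianMetric I ∞ E (fun x : M => TangentSpace I x), IsKPositive N k g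

end

/-- the unit sphere `Sⁿ` of `ℝ^(n+1)` -/
abbrev Sph (n : ℕ) : Type := sphere (0 : EuclideanSpace ℝ (Fin (n + 1))) 1

/-! ### The metric on `S² × S²` -/

/-- `ℝ³` -/
abbrev R3 : Type := EuclideanSpace ℝ (Fin 3)

/-- the first projection `S² × S² → S² ⊂ ℝ³` -/
def prX (p : Sph 2 × Sph 2) : R3 := p.1

/-- the second projection `S² × S² → S² ⊂ ℝ³` -/
def prY (p : Sph 2 × Sph 2) : R3 := p.2

/-- the cross product of `ℝ³` -/
def cross (a b : R3) : R3 :=
  !₂[a 1 * b 2 - a 2 * b 1, a 2 * b 0 - a 0 * b 2, a 0 * b 1 - a 1 * b 0]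

/-- the coefficient `φ` -/
def phi (u : ℝ) : ℝ := (19 + 5 * u ^ 2) / 28

/-- the coefficient `Γ` -/
def Gam (u : ℝ) : ℝ := (7 + 3 * u ^ 2 + 2 * u ^ 4 + 2 * u ^ 6 + 2 * u ^ 8 + 2 * u ^ 10) / 18

/-- the coefficient `κ = (1 - Γ)/(1 - u²)` -/
def kap (u : ℝ) : ℝ := (11 + 8 * u ^ 2 + 6 * u ^ 4 + 4 * u ^ 6 + 2 * u ^ 8) / 18

/-- `φ |ξ|² + Γ |η|² + κ (1 + Γ) / Γ ⟨x, η⟩²`, where the coefficients are evaluated at `⟨x, y⟩` -/
def form (x y ξ η : R3) : ℝ :=
  phi ⟪x, y⟫ * ‖ξ‖ ^ 2 + Gam ⟪x, y⟫ * ‖η‖ ^ 2 +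
    kap ⟪x, y⟫ * (1 + Gam ⟪x, y⟫) / Gam ⟪x, y⟫ * ⟪x, η⟫ ^ 2

section

variable {E : Type*} [NormedAddCommGroup E] [NormedSpace ℝ E]
  {H : Type*} [TopologicalSpace H]

/-- the differential of a map `f : M → F` into a vector space -/
def diff {F : Type*} [NormedAddCommGroup F] [NormedSpace ℝ F]
    (I : ModelWithCorners ℝ E H) {M : Type*} [TopologicalSpace M] [ChartedSpace H M]
    (f : M → F) (p : M) (v : TangentSpace I p) : F :=
  mfderiv I 𝓘(ℝ, F) f p v

/-- For the maps `x, y : M → ℝ³` the formula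
`g = φ |dx|² + Γ |η|² + κ (1 + Γ) / Γ ⟨x, η⟩²`, `η = dy - (x × dx) × y`,
with coefficients evaluated at `⟨x, y⟩`, defines a smooth Riemannian metric `g` on `M`, and the
curvature operator of the `N`-dimensional Riemannian manifold `(M, g)` is `k`-positive. -/
def ExplicitMetricIsKPositive (I : ModelWithCorners ℝ E H) {M : Type*} [TopologicalSpace M]
    [ChartedSpace H M] [IsManifold I ∞ M] (x y : M → R3) (N k : ℕ) : Prop :=
  ∃ g : ContMDiffRiemannianMetric I ∞ E (fun p : M => TangentSpace I p),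
    (∀ (p : M) (v : TangentSpace I p), g.inner p v v =
      form (x p) (y p) (diff I x p v) (diff I y p v - cross (cross (x p) (diff I x p v)) (y p))) ∧
    IsKPositive N k g

end

/-- `n = 2`: the explicit metric on `S² × S²` has `3`-positive curvature operator. -/
def YesForTwo : Prop := ExplicitMetricIsKPositive ((𝓡 2).prod (𝓡 2)) prX prY 4 3

/-- `n ≥ 3`: every metric on `Sⁿ × Sⁿ` has a point where `n + 1` eigenvalues have sum `≤ 0`. -/
def NoFromThree : Prop :=
  ∀ n : ℕ, 3 ≤ n → EveryMetricFails ((𝓡 n).prod (𝓡 n)) (Sph n × Sph n) (2 * n) (n + 1)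

/-- `Sⁿ × Sⁿ` admits a metric with `(n+1)`-positive curvature operator. -/
def SnxSnAdmits (n : ℕ) : Prop := Admits ((𝓡 n).prod (𝓡 n)) (Sph n × Sph n) (2 * n) (n + 1)

theorem yes : YesForTwo := by
  obtain ⟨g, hg⟩ := Pool.Agent.H893R5.HO.Emb.exists_metric com22
  refine ⟨g, fun p v => ?_, isKPositive hg⟩
  have hd : MDifferentiableAt ((𝓡 2).prod (𝓡 2)) 𝓘(ℝ, R3 × R3)
      (Pool.Agent.H893R5.HO.sj R3 R3) p :=
    (Pool.Agent.H893R5.HO.smooth_sj 2 2).mdifferentiableAt (by simp)
  have h1 : diff ((𝓡 2).prod (𝓡 2)) prX p v = (X22.d p v).1 :=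
    Pool.Agent.H893R5.HO.d_clm' (ContinuousLinearMap.fst ℝ R3 R3) hd v
  have h2 : diff ((𝓡 2).prod (𝓡 2)) prY p v = (X22.d p v).2 :=
    Pool.Agent.H893R5.HO.d_clm' (ContinuousLinearMap.snd ℝ R3 R3) hd v
  have h := metric_formula hg p v rfl rfl h1 (by rw [← h2])
  rw [real_inner_self_eq_norm_sq, real_inner_self_eq_norm_sq] at h
  exact h

theorem no : NoFromThree := by
  intro n hn g
  have hA : Pool.Agent.H781.NG.AlgLemma n := Pool.Agent.H781.NG.alg3 n hn
  have h1 := Pool.Agent.H781.NG.exists_LC (by omega) g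
  have h2 := fun cov R hLC hR =>
    Pool.Agent.H781.NG.no_positive (by omega) hA g cov R hLC hR
  refine ⟨h1, h2, ?_⟩
  intro hk
  obtain ⟨cov, R, hLC, hR⟩ := h1
  obtain ⟨x, f, hf, h, t, ht, hle⟩ := h2 cov R hLC hR
  obtain ⟨h', hpos⟩ := (hk.2 cov R hLC hR x).2 f hf
  exact absurd (hpos t ht) (not_lt.2 hle)

/-- **Theorem.** For `n ≥ 2` the product `Sⁿ × Sⁿ` admits a smooth Riemannian metric whose curvature
operator is `(n+1)`-positive if and only if `n = 2`. For `n = 2` the explicit metric is an example;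
for `n ≥ 3` every metric has a point where some `n + 1` eigenvalues of the curvature operator have
sum `≤ 0`. -/
theorem result : (∀ n : ℕ, 2 ≤ n → (SnxSnAdmits n ↔ n = 2)) ∧ YesForTwo ∧ NoFromThree := by
  refine ⟨fun n hn => ⟨fun ⟨g, hg⟩ => ?_, ?_⟩, yes, no⟩
  · by_contra hne
    exact (no n (by omega) g).2.2 hg
  · rintro rfl
    obtain ⟨g, _, hg⟩ := yes
    exact ⟨g, hg⟩

end Pool.Agent.Results.MP_b50944_gt.PositiveIffTwo
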